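import Pool.Agent.Helper72_G02.SA

/-!
# Squad G02, row SB2: recipe S, `m = 5`, the curve `S'`
-/

set_option autoImplicit false

namespace Pool.Agent.G02.H47

open Pool.Agent.NJ Pool.Agent.G02 Pool.Agent.G02.H72

/-- SB2: recipe S, `m = 5`, the curve `S'`. -/
theorem sb2 (hSUS : SusStmt) (hRLS : RlsStmt) (hLA : LaStmt) (hLD : LdStmt)
    (hSQF : SQFStmt) : Sb2Stmt := by
  intro k p q r hqF hR hk hkq d M e N B hQ hpd
  have hpF : Fact p.Prime := ⟨hR.pp⟩
  have hrF : Fact r.Prime := ⟨hR.pr⟩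
  obtain ⟨h5, s, hs⟩ := hRLS.2 k p q r hR
  have hs1 : s = 1 ∨ s = -1 := hs.one
  have hrr : (r : ℤ) = q - 2 * p := hR.hr
  have prp : Prime (p : ℤ) := Nat.prime_iff_prime_int.mp hR.pp
  have prq : Prime (q : ℤ) := Nat.prime_iff_prime_int.mp hR.pq
  have prr : Prime (r : ℤ) := Nat.prime_iff_prime_int.mp hR.pr
  have ndm : ∀ {x a b : ℤ}, Prime x → ¬ x ∣ a → ¬ x ∣ b → ¬ x ∣ a * b := by
    intro x a b hp ha hb h
    rcases hp.dvd_or_dvd h with h | h
    · exact ha h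
    · exact hb h
  have ndp : ∀ {x a : ℤ} {n : ℕ}, Prime x → ¬ x ∣ a → ¬ x ∣ a ^ n := by
    intro x a n hp ha h
    exact ha (hp.dvd_of_dvd_pow h)
  have p2 : ¬ (p : ℤ) ∣ 2 := fun h => hs.p2 (dv2 hR.pp h)
  have q2 : ¬ (q : ℤ) ∣ 2 := fun h => hs.q2 (dv2 hR.pq h)
  have pq : ¬ (p : ℤ) ∣ q := fun h => hs.npq (dv hR.pp hR.pq h)
  have pr : ¬ (p : ℤ) ∣ r := fun h => hs.npr (dv hR.pp hR.pr h)
  have qp : ¬ (q : ℤ) ∣ p := fun h => hs.npq (dv hR.pq hR.pp h).symm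
  have qr : ¬ (q : ℤ) ∣ r := fun h => hs.nqr (dv hR.pq hR.pr h)
  have hdisc : (8 * k * (p : ℤ) ^ 2 * q * r) ^ 2 - 4 * (-(8 * k ^ 2 * p ^ 3 * q ^ 2 * r ^ 3))
      = (q : ℤ) ^ 3 * (32 * k ^ 2 * p ^ 3 * r ^ 2) := by
    rw [hrr]; ring
  -- LA at `p`
  have hdp : legendreSym p d = 1 := by
    refine hLA _ _ _ _ _ _ _ hQ p hs.p2 hpd (Or.inr ⟨⟨8 * k * q * r, by ring⟩,
      ⟨-(8 * k ^ 2 * q ^ 2 * r ^ 3), by ring⟩, ?_⟩)
    intro h
    have e : -(8 * k ^ 2 * (p : ℤ) ^ 3 * q ^ 2 * r ^ 3)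
        = p ^ 3 * (-(8 * k ^ 2 * q ^ 2 * r ^ 3)) := by ring
    rw [e, pow_succ, mul_dvd_mul_iff_left (pow_ne_zero 3 prp.ne_zero), dvd_neg] at h
    have h8 : ¬ (p : ℤ) ∣ 8 := by
      have := ndp (n := 3) prp p2
      simpa using this
    exact ndm prp (ndm prp (ndm prp h8 (ndp prp hs.kp)) (ndp prp pq)) (ndp prp pr) h
  have h2p : legendreSym p 2 = -1 := sym2 (Or.inr hR.mp)
  have h2q : legendreSym q 2 = -1 := sym2 (Or.inr hR.mq)
  have hm1 : ∀ (l : ℕ) [Fact l.Prime], l % 8 = 5 → legendreSym l (-1) = 1 := by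
    intro l _ hl
    rw [legendreSym.at_neg_one (by omega : l ≠ 2)]
    exact ZMod.χ₄_nat_one_mod_four (by omega)
  have hm1p : legendreSym p (-1) = 1 := hm1 p hR.mp
  have hm1q : legendreSym q (-1) = 1 := hm1 q hR.mq
  -- LD at `q`
  have hsym : legendreSym q (2 * (8 * k * p ^ 2 * r) * (32 * k ^ 2 * p ^ 3 * r ^ 2)) = -1 := by
    have e : 2 * (8 * k * (p : ℤ) ^ 2 * r) * (32 * k ^ 2 * p ^ 3 * r ^ 2)
        = (16 * k * p ^ 2 * r) ^ 2 * (2 * (k * (p * r))) := by ring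
    have h16 : ¬ (q : ℤ) ∣ 16 := by
      have := ndp (n := 4) prq q2
      simpa using this
    rw [e, symsq (ndm prq (ndm prq (ndm prq h16 hs.kq) (ndp prq qp)) qr), legendreSym.mul,
      legendreSym.mul, legendreSym.mul, h2q, hkq, hs.hqP, hs.hqR]
    rcases hs1 with rfl | rfl <;> norm_num
  obtain ⟨hqd, hdq⟩ := hLD _ _ _ _ _ _ _ hQ q (8 * k * p ^ 2 * r) (-(8 * k ^ 2 * p ^ 3 * r ^ 3))
    (32 * k ^ 2 * p ^ 3 * r ^ 2) hs.q2 (by ring) (by ring) hdisc hsym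
  -- the list
  have hsup := (hSUS 5 k p q r hR d M e N B).2 hQ
  obtain ⟨ε, hε, hd⟩ := (hSQF d r q hQ.sqf hR.pr hR.pq hs.r2 hs.q2 hs.nqr.symm).1 (by
    intro l hl hld
    rcases hsup l hl hld with h | h | h | h
    · exact Or.inl h
    · subst h; exact absurd hld hpd
    · subst h; exact absurd hld hqd
    · exact Or.inr h)
  -- the case `d = -1`
  have hmm : d ≠ -1 := by
    intro hd1
    subst hd1
    have hB : B = 8 * k ^ 2 * p ^ 3 * q ^ 2 * r ^ 3 := by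
      have := hQ.hb
      linarith
    have heq := hQ.eq
    rw [hB] at heq
    have sq1 : ∀ x : ℤ, Odd x → x ^ 2 % 8 = 1 := by
      intro x hx
      have h : x % 8 = 1 ∨ x % 8 = 3 ∨ x % 8 = 5 ∨ x % 8 = 7 := by
        rw [Int.odd_iff] at hx; omega
      rw [pow_two, Int.mul_emod]
      rcases h with h | h | h | h <;> rw [h] <;> norm_num
    rcases Int.even_or_odd M with hM | hM
    · -- `M` even
      have he : Odd e := by
        by_contra h
        rw [Int.not_odd_iff_even] at h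
        have h2e : (2 : ℤ) ∣ e := h.two_dvd
        have h2d : (2 : ℤ) ∣ -1 * M := hM.two_dvd.mul_left _
        have := hQ.cop.isUnit_of_dvd' h2d h2e
        rw [Int.isUnit_iff] at this
        omega
      obtain ⟨M₁, hM₁⟩ := hM
      have hM₂ : M = 2 * M₁ := by rw [hM₁]; ring
      subst hM₂
      have op : Odd (p : ℤ) := by rw [Int.odd_iff]; have := hR.mp; omega
      have oq : Odd (q : ℤ) := by rw [Int.odd_iff]; have := hR.mq; omega
      have or' : Odd (r : ℤ) := by rw [Int.odd_iff]; omega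
      have ho : Odd (k ^ 2 * (p : ℤ) ^ 3 * q ^ 2 * r ^ 3 * e ^ 4) :=
        ((((hk.pow).mul op.pow).mul oq.pow).mul or'.pow).mul he.pow
      have heq2 : N ^ 2 = 4 * (4 * (-M₁ ^ 4 + 2 * k * p ^ 2 * q * r * M₁ ^ 2 * e ^ 2)
          + 2 * (k ^ 2 * (p : ℤ) ^ 3 * q ^ 2 * r ^ 3 * e ^ 4)) := by
        rw [heq]; ring
      have hN : (2 : ℤ) ∣ N := by
        have : (2 : ℤ) ∣ N ^ 2 := by
          rw [heq2]
          exact Dvd.dvd.mul_right (by norm_num) _
        exact Int.prime_two.dvd_of_dvd_pow this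
      obtain ⟨N₁, hN₁⟩ := hN
      subst hN₁
      have heq3 : N₁ ^ 2 = 4 * (-M₁ ^ 4 + 2 * k * p ^ 2 * q * r * M₁ ^ 2 * e ^ 2)
          + 2 * (k ^ 2 * (p : ℤ) ^ 3 * q ^ 2 * r ^ 3 * e ^ 4) := by linarith
      obtain ⟨c, hc⟩ := ho
      rw [hc] at heq3
      rcases Int.even_or_odd N₁ with h | h
      · obtain ⟨c', hc'⟩ := h
        have h4 : N₁ ^ 2 = 4 * c' ^ 2 := by rw [hc']; ring
        omega
      · have := sq1 _ h
        omega
    · -- `M` odd
      have hM4 : M ^ 4 % 8 = 1 := by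
        have : M ^ 4 = (M ^ 2) ^ 2 := by ring
        rw [this]
        exact sq1 _ hM.pow
      have heq2 : N ^ 2 = -M ^ 4 + 8 * (k * p ^ 2 * q * r * M ^ 2 * e ^ 2
          + k ^ 2 * p ^ 3 * q ^ 2 * r ^ 3 * e ^ 4) := by
        rw [heq]; ring
      rcases Int.even_or_odd N with h | h
      · obtain ⟨c', hc'⟩ := h
        have h4 : N ^ 2 = 4 * c' ^ 2 := by rw [hc']; ring
        omega
      · have := sq1 _ h
        omega
  rcases hd with hd | hd | hd | hd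
  · rcases hε with h | h
    · rw [hd, h]
    · exact absurd (by rw [hd, h]) hmm
  · exfalso
    rcases hε with h | h
    · rw [hd, h, one_mul, h2p] at hdp
      norm_num at hdp
    · rw [hd, h, legendreSym.mul, hm1p, h2p] at hdp
      norm_num at hdp
  · exfalso
    rcases hε with h | h
    · rw [hd, h, one_mul, hs.hpR] at hdp
      rw [hd, h, one_mul, hs.hqR] at hdq
      linarith
    · rw [hd, h, legendreSym.mul, hm1p, hs.hpR] at hdp
      rw [hd, h, legendreSym.mul, hm1q, hs.hqR] at hdq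
      linarith
  · exfalso
    rcases hε with h | h
    · rw [hd, h, one_mul, legendreSym.mul, h2p, hs.hpR] at hdp
      rw [hd, h, one_mul, legendreSym.mul, h2q, hs.hqR] at hdq
      linarith
    · rw [hd, h, legendreSym.mul, legendreSym.mul, hm1p, h2p, hs.hpR] at hdp
      rw [hd, h, legendreSym.mul, legendreSym.mul, hm1q, h2q, hs.hqR] at hdq
      linarith

end Pool.Agent.G02.H47
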